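import Pool.Agent.Q47.DP.Digits2

/-!
# Q1 for sets that contain a digit product set

Let `g_0, …, g_{K-1} ≥ 2` be radices with `g_0 ⋯ g_{K-1} ≤ N` and `D_i ⊆ {0, …, g_i - 1}` nonempty sets of digits. The
digit product set is `P = {∑_{i<K} d_i g_0 ⋯ g_{i-1} : d_i ∈ D_i}`. The digit sets are arbitrary, except that each of
them has bounded doubling, `|D_i + D_i| ≤ κ |D_i|`, or is polynomially sparse, `|D_i| ≤ g_i ^ (1 - δ)`; the radices are
not bounded. The sets with `|D_i| ≥ η g_i` have doubling at most `2/η`, so that all dense digit sets are allowed.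

The theorem says that the conclusion of Q1 holds for all sets `A ⊆ ℤ/N` of density `α ≤ 1/2` that contain an affine
copy `t + u P` (`u` a unit) of a digit product set of density at least `α^s`. The constants depend on `δ`, `κ` and `s`
only. The radius `c / log (1/α)` is replaced by `c / (1 + Λ)` if `|D_i| ≥ e^{-Λ} g_i` for all digit sets which are
not polynomially sparse; so it is constant for dense digit sets. For random sets `D_i` of density `1/2` and radices
growing fast in terms of `K`, the set `P` has small additive energy (about `3^{-K} |P|^3`) and is exponentially thin (in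
`K`) on long progressions, so that it seems not to be covered by the results of the sibling files.

Proof: the top digit `n` of `y = n M + r`, `|r| ≤ M/2`, is controlled by the characters `y/M` (which shows that `r/M` is
small) and `γ y/(g M)` for the frequencies `γ` of a Bohr set in `2D - 2D`, given by Bogolyubov's theorem for sets of small
doubling (`Q285/SD`, the engine of the sibling file `LargeEnergy`) for the densest quarter of `D`; no character is
needed if `|D| > 3g/4`, and `O(log g)` characters force `n = 0`. The condition on the lower digits is periodic, so that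
one can go on with `r`: no carries occur. The frequencies for `y/M` etc. are rounded to multiples of `1/N`.
-/

set_option autoImplicit false

namespace Pool.Agent.Results.MP_169871_nt.DigitProductSets

open Pool.Agent
open scoped Pointwise

/-- The Bohr set `B(Γ, ε) = {x ∈ ℤ/N : ‖γ x / N‖ ≤ ε for all γ ∈ Γ}`; the norm is the distance to the nearest
integer. -/
def bohr {N : ℕ} (Γ : Finset (ZMod N)) (ε : ℝ) : Set (ZMod N) :=
  {x | ∀ γ ∈ Γ, |((γ * x).val : ℝ) / (N : ℝ) - ((round (((γ * x).val : ℝ) / (N : ℝ)) : ℤ) : ℝ)| ≤ ε}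

/-- The set `2A - 2A`. -/
def twoAMinusTwoA {N : ℕ} (A : Finset (ZMod N)) : Set (ZMod N) :=
  {x | ∃ a₁ ∈ A, ∃ a₂ ∈ A, ∃ a₃ ∈ A, ∃ a₄ ∈ A, x = a₁ + a₂ - a₃ - a₄}

/-- The digit product set `{∑_{i<K} d_i g_0 ⋯ g_{i-1} : d_i ∈ D_i}` in `ℤ/N`. -/
def digitSet (N K : ℕ) (g : ℕ → ℕ) (D : ℕ → Finset ℕ) : Set (ZMod N) :=
  {x | ∃ d : ℕ → ℕ, (∀ i < K, d i ∈ D i) ∧
    x = ((∑ i ∈ Finset.range K, d i * ∏ j ∈ Finset.range i, g j : ℕ) : ZMod N)}

theorem card_digitSet (N K : ℕ) (hN : 0 < N) (g : ℕ → ℕ) (D : ℕ → Finset ℕ) :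
    (digitSet N K g D).ncard ≤ ∏ i ∈ Finset.range K, (D i).card := by
  classical
  have : NeZero N := ⟨hN.ne'⟩
  have h1 : digitSet N K g D ⊆ ((Fintype.piFinset fun i : Fin K => D i).image
      fun d : Fin K → ℕ => ((∑ i : Fin K, d i * ∏ j ∈ Finset.range i, g j : ℕ) : ZMod N) : Finset (ZMod N)) := by
    rintro x ⟨d, hd, rfl⟩
    rw [Finset.mem_coe, Finset.mem_image]
    refine ⟨fun i => d i, ?_, ?_⟩
    · rw [Fintype.mem_piFinset]
      exact fun i => hd i i.2
    · rw [Finset.sum_range]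
  have h2 := Set.ncard_le_ncard h1 (Finset.finite_toSet _)
  rw [Set.ncard_coe_finset] at h2
  refine h2.trans (Finset.card_image_le.trans ?_)
  rw [Fintype.card_piFinset, Finset.prod_range]

theorem nonempty_digitSet (N K : ℕ) (g : ℕ → ℕ) (D : ℕ → Finset ℕ) (hD : ∀ i < K, (D i).Nonempty) :
    (digitSet N K g D).Nonempty := by
  have : ∀ i, ∃ d : ℕ, i < K → d ∈ D i := by
    intro i
    by_cases h : i < K
    · obtain ⟨d, hd⟩ := hD i h
      exact ⟨d, fun _ => hd⟩
    · exact ⟨0, fun h' => absurd h' h⟩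
  choose d hd using this
  exact ⟨_, d, hd, rfl⟩

/-- The sum over the digits is bounded by the logarithm of the density. -/
theorem sum_digits (N K : ℕ) (g : ℕ → ℕ) (D : ℕ → Finset ℕ) (hN : 0 < N) (hg : ∀ i < K, 2 ≤ g i)
    (hD : ∀ i < K, (D i).Nonempty ∧ D i ⊆ Finset.range (g i)) :
    ∑ i ∈ Finset.range K, Real.log (g i / (D i).card) ≤
      Real.log (Q47.DP2.MM g K) - Real.log ((digitSet N K g D).ncard : ℝ) ∧
    Real.log ((digitSet N K g D).ncard : ℝ) ≤ Real.log (Q47.DP2.MM g K : ℝ) := by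
  classical
  have : NeZero N := ⟨hN.ne'⟩
  have hPfin : (digitSet N K g D).Finite := Set.toFinite _
  have hPpos : 0 < (digitSet N K g D).ncard :=
    (Set.ncard_pos hPfin).mpr (nonempty_digitSet N K g D fun i hi => (hD i hi).1)
  have hPpos' : (0 : ℝ) < (digitSet N K g D).ncard := by exact_mod_cast hPpos
  have h2 : ∑ i ∈ Finset.range K, Real.log (g i / (D i).card) =
      Real.log (Q47.DP2.MM g K) - Real.log (∏ i ∈ Finset.range K, ((D i).card : ℝ)) := by
    have e1 : ((Q47.DP2.MM g K : ℕ) : ℝ) = ∏ i ∈ Finset.range K, (g i : ℝ) := by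
      unfold Q47.DP2.MM
      push_cast
      rfl
    rw [e1, Real.log_prod, Real.log_prod, ← Finset.sum_sub_distrib]
    · apply Finset.sum_congr rfl
      intro i hi
      have a1 := hg i (Finset.mem_range.mp hi)
      have a2 : (0 : ℝ) < g i := by
        have : 0 < g i := by omega
        exact_mod_cast this
      have a3 : (0 : ℝ) < (D i).card := by exact_mod_cast (hD i (Finset.mem_range.mp hi)).1.card_pos
      rw [Real.log_div a2.ne' a3.ne']
    · intro i hi
      have a3 : (0 : ℝ) < (D i).card := by exact_mod_cast (hD i (Finset.mem_range.mp hi)).1.card_pos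
      exact a3.ne'
    · intro i hi
      have a1 := hg i (Finset.mem_range.mp hi)
      have : 0 < g i := by omega
      have a2 : (0 : ℝ) < g i := by exact_mod_cast this
      exact a2.ne'
  have h3 : Real.log ((digitSet N K g D).ncard : ℝ) ≤ Real.log (∏ i ∈ Finset.range K, ((D i).card : ℝ)) := by
    apply Real.log_le_log hPpos'
    exact_mod_cast card_digitSet N K hN g D
  have h5 : Real.log ((digitSet N K g D).ncard : ℝ) ≤ Real.log (Q47.DP2.MM g K : ℝ) := by
    apply Real.log_le_log hPpos'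
    have : (digitSet N K g D).ncard ≤ ∏ i ∈ Finset.range K, g i := by
      refine (card_digitSet N K hN g D).trans (Finset.prod_le_prod' fun i hi => ?_)
      have := Finset.card_le_card (hD i (Finset.mem_range.mp hi)).2
      rwa [Finset.card_range] at this
    exact_mod_cast this
  exact ⟨by linarith, h5⟩

/-- The theorem for a given radius. -/
theorem core (κ C₁ c₁ : ℝ) (hC₁ : 0 < C₁) (hH : Q47.DP2.DigitProp κ C₁ c₁) (δ s : ℝ) (hδ : 0 < δ)
    (N K : ℕ) (g : ℕ → ℕ) (D : ℕ → Finset ℕ) (hN : 0 < N) (hg : ∀ i < K, 2 ≤ g i)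
    (hMN : ∏ i ∈ Finset.range K, g i ≤ N) (hD : ∀ i < K, (D i).Nonempty ∧ D i ⊆ Finset.range (g i))
    (A : Finset (ZMod N)) (t u : ZMod N) (hu : IsUnit u) (hP : ∀ x ∈ digitSet N K g D, t + u * x ∈ A)
    (hα : (A.card : ℝ) / (N : ℝ) ≤ 1 / 2)
    (hs : ((A.card : ℝ) / (N : ℝ)) ^ s ≤ ((digitSet N K g D).ncard : ℝ) / (N : ℝ)) :
    (∀ i < K, Real.log (g i / (D i).card) ≤ s * Real.log ((N : ℝ) / (A.card : ℝ))) ∧
    ∀ ε : ℝ, 0 < ε → ε ≤ 1 / 24 →
      (∀ i < K, (((D i + D i).card : ℝ) ≤ κ * ((D i).card : ℝ) ∧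
        9 / 4 * ε * (1 + Real.log (g i / (D i).card)) ≤ c₁) ∨ ((D i).card : ℝ) ≤ (g i : ℝ) ^ (1 - δ)) →
      ∃ Γ : Finset (ZMod N),
        (Γ.card : ℝ) ≤ (s * (Q47.DP2.CC δ C₁ + 1 / Real.log 2) + 2 / Real.log 2) *
          Real.log ((N : ℝ) / (A.card : ℝ)) ∧ bohr Γ ε ⊆ twoAMinusTwoA A := by
  have hlog2 : 0 < Real.log 2 := Real.log_pos (by norm_num)
  have hCC := Q47.DP2.CC_pos δ C₁ hδ hC₁
  classical
  have : NeZero N := ⟨hN.ne'⟩
  have hNpos : (0 : ℝ) < N := by exact_mod_cast hN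
  obtain ⟨hsum1, hsum2⟩ := sum_digits N K g D hN hg hD
  have hPne := nonempty_digitSet N K g D fun i hi => (hD i hi).1
  have hPpos : 0 < (digitSet N K g D).ncard := (Set.ncard_pos (Set.toFinite _)).mpr hPne
  have hPpos' : (0 : ℝ) < (digitSet N K g D).ncard := by exact_mod_cast hPpos
  have hApos : (0 : ℝ) < A.card := by
    obtain ⟨x, hx⟩ := hPne
    exact_mod_cast Finset.card_pos.mpr ⟨_, hP x hx⟩
  have hMpos : (0 : ℝ) < Q47.DP2.MM g K := by
    exact_mod_cast Q47.DP2.MM_pos g K (fun i hi => by have := hg i hi; omega) K le_rfl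
  have h4 : Real.log (Q47.DP2.MM g K : ℝ) ≤ Real.log N := by
    apply Real.log_le_log hMpos
    exact_mod_cast hMN
  have h6 : Real.log N - Real.log ((digitSet N K g D).ncard : ℝ) ≤ s * Real.log ((N : ℝ) / A.card) := by
    have a1 := Real.log_le_log (Real.rpow_pos_of_pos (div_pos hApos hNpos) s) hs
    rw [Real.log_rpow (div_pos hApos hNpos), Real.log_div hPpos'.ne' hNpos.ne', Real.log_div hApos.ne' hNpos.ne'] at a1
    rw [Real.log_div hNpos.ne' hApos.ne']
    linarith
  have hterm : ∀ i ∈ Finset.range K, 0 ≤ Real.log (g i / (D i).card) := by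
    intro i hi
    have h1 := hD i (Finset.mem_range.mp hi)
    have a3 : (0 : ℝ) < (D i).card := by exact_mod_cast h1.1.card_pos
    apply Real.log_nonneg
    rw [le_div_iff₀ a3, one_mul]
    have := Finset.card_le_card h1.2
    rw [Finset.card_range] at this
    exact_mod_cast this
  refine ⟨?_, ?_⟩
  · intro i hi
    have := Finset.single_le_sum hterm (Finset.mem_range.mpr hi)
    linarith
  intro ε hε0 hε hc
  obtain ⟨Γ, hΓ1, hΓ2⟩ := Q47.DP2.main κ C₁ c₁ hC₁ hH ε hε0 hε δ hδ N K g D hN hg hMN (fun i hi => (hD i hi).2)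
    (fun i hi => (hD i hi).1) hc
  obtain ⟨v, hv⟩ := hu
  refine ⟨Γ.image fun γ => γ * (↑v⁻¹ : ZMod N), ?_, ?_⟩
  · -- the number of frequencies
    have h1 : ((Γ.image fun γ => γ * (↑v⁻¹ : ZMod N)).card : ℝ) ≤ Γ.card := by
      exact_mod_cast Finset.card_image_le
    rw [Real.log_div hNpos.ne' hMpos.ne'] at hΓ1
    have h7 : Real.log 2 ≤ Real.log ((N : ℝ) / A.card) := by
      apply Real.log_le_log (by norm_num)
      rw [le_div_iff₀ hApos]
      rw [div_le_iff₀ hNpos] at hα
      linarith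
    have h8 : (2 : ℝ) ≤ 2 / Real.log 2 * Real.log ((N : ℝ) / A.card) := by
      rw [div_mul_eq_mul_div, le_div_iff₀ hlog2]
      linarith
    have h9 : Q47.DP2.CC δ C₁ * ∑ i ∈ Finset.range K, Real.log (g i / (D i).card) ≤
        Q47.DP2.CC δ C₁ * (Real.log N - Real.log ((digitSet N K g D).ncard : ℝ)) :=
      mul_le_mul_of_nonneg_left (by linarith) hCC.le
    have h10 : (Real.log N - Real.log (Q47.DP2.MM g K)) / Real.log 2 ≤
        1 / Real.log 2 * (Real.log N - Real.log ((digitSet N K g D).ncard : ℝ)) := by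
      rw [div_mul_eq_mul_div, one_mul]
      exact div_le_div_of_nonneg_right (by linarith) hlog2.le
    have h11 : (Q47.DP2.CC δ C₁ + 1 / Real.log 2) * (Real.log N - Real.log ((digitSet N K g D).ncard : ℝ)) ≤
        (Q47.DP2.CC δ C₁ + 1 / Real.log 2) * (s * Real.log ((N : ℝ) / A.card)) :=
      mul_le_mul_of_nonneg_left h6 (by positivity)
    calc ((Γ.image fun γ => γ * (↑v⁻¹ : ZMod N)).card : ℝ) ≤ Γ.card := h1
      _ ≤ (Q47.DP2.CC δ C₁ + 1 / Real.log 2) * (s * Real.log ((N : ℝ) / A.card)) +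
          2 / Real.log 2 * Real.log ((N : ℝ) / A.card) := by linarith
      _ = _ := by ring
  · -- the inclusion
    intro x hx
    obtain ⟨p₁, hp₁, p₂, hp₂, p₃, hp₃, p₄, hp₄, hsum⟩ := hΓ2 (↑v⁻¹ * x) (fun γ hγ => by
      have h1 := hx (γ * (↑v⁻¹ : ZMod N)) (Finset.mem_image_of_mem _ hγ)
      rw [mul_assoc] at h1
      exact h1)
    refine ⟨t + u * p₁, hP p₁ hp₁, t + u * p₂, hP p₂ hp₂, t + u * p₃, hP p₃ hp₃, t + u * p₄, hP p₄ hp₄, ?_⟩
    have h2 : x = u * (↑v⁻¹ * x) := by
      rw [← hv, ← mul_assoc, Units.mul_inv, one_mul]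
    rw [hsum] at h2
    rw [h2]
    ring

/-- **Q1 for sets that contain a digit product set**: for all `δ, s > 0` and `κ` there are `C, c > 0` such that the
following holds for all `N ≥ 1`, all `K`, all radices `g_i ≥ 2` (`i < K`) with `∏ g_i ≤ N` and all nonempty
`D_i ⊆ {0, …, g_i - 1}` with `|D_i + D_i| ≤ κ |D_i|` or `|D_i| ≤ g_i ^ (1 - δ)` for each `i < K`. Let `A ⊆ ℤ/N` have
density `α ≤ 1/2`, contain `t + u P` with the digit product set `P` and a unit `u`, and let `|P|/N ≥ α^s`. Then for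
every `Λ ≥ 0` with `|D_i| ≥ e^{-Λ} g_i` or `|D_i| ≤ g_i ^ (1 - δ)` for each `i < K` (there are such `Λ`) the set
`2A - 2A` contains a Bohr set with at most `C log (1/α)` frequencies and radius `c / min (log (1/α)) (1 + Λ)`. -/
theorem result : ∀ δ κ s : ℝ, 0 < δ → 0 < s → ∃ C c : ℝ, 0 < C ∧ 0 < c ∧
    ∀ (N K : ℕ) (g : ℕ → ℕ) (D : ℕ → Finset ℕ), 0 < N →
      (∀ i < K, 2 ≤ g i) → ∏ i ∈ Finset.range K, g i ≤ N →
      (∀ i < K, (D i).Nonempty ∧ D i ⊆ Finset.range (g i)) →
      (∀ i < K, ((D i + D i).card : ℝ) ≤ κ * ((D i).card : ℝ) ∨ ((D i).card : ℝ) ≤ (g i : ℝ) ^ (1 - δ)) →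
      ∀ (A : Finset (ZMod N)) (t u : ZMod N), IsUnit u →
        (∀ x ∈ digitSet N K g D, t + u * x ∈ A) →
        (A.card : ℝ) / (N : ℝ) ≤ 1 / 2 →
        ((A.card : ℝ) / (N : ℝ)) ^ s ≤ ((digitSet N K g D).ncard : ℝ) / (N : ℝ) →
        ∀ Λ : ℝ, 0 ≤ Λ →
          (∀ i < K, Real.exp (-Λ) * (g i : ℝ) ≤ ((D i).card : ℝ) ∨ ((D i).card : ℝ) ≤ (g i : ℝ) ^ (1 - δ)) →
          ∃ Γ : Finset (ZMod N), (Γ.card : ℝ) ≤ C * Real.log ((N : ℝ) / (A.card : ℝ)) ∧
            bohr Γ (c / min (Real.log ((N : ℝ) / (A.card : ℝ))) (1 + Λ)) ⊆ twoAMinusTwoA A := by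
  intro δ κ s hδ hs0
  obtain ⟨C₁, c₁, hC₁, hc₁, hH⟩ := Q47.DP2.digit2 κ
  have hlog2 : 0 < Real.log 2 := Real.log_pos (by norm_num)
  have hlog2' : Real.log 2 ≤ 1 := by
    have := Real.log_two_lt_d9
    linarith
  have hinv : 1 ≤ 1 / Real.log 2 := by
    rw [le_div_iff₀ hlog2]
    linarith
  have hCC := Q47.DP2.CC_pos δ C₁ hδ hC₁
  obtain ⟨c, hcdef⟩ : ∃ c : ℝ, c = min (Real.log 2 / 24) (4 * c₁ / (9 * (1 / Real.log 2 + s))) := ⟨_, rfl⟩
  have hc0 : 0 < c := by
    rw [hcdef]
    exact lt_min (by positivity) (by positivity)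
  have hcA : c ≤ Real.log 2 / 24 := by rw [hcdef]; exact min_le_left _ _
  have hcB : 9 / 4 * c * (1 / Real.log 2 + s) ≤ c₁ := by
    have h1 : c ≤ 4 * c₁ / (9 * (1 / Real.log 2 + s)) := by rw [hcdef]; exact min_le_right _ _
    rw [le_div_iff₀ (by positivity)] at h1
    linarith
  have hcB' : 9 / 4 * c ≤ c₁ := by
    have h1 : 9 / 4 * c * 1 ≤ 9 / 4 * c * (1 / Real.log 2 + s) :=
      mul_le_mul_of_nonneg_left (by linarith) (by positivity)
    linarith
  refine ⟨s * (Q47.DP2.CC δ C₁ + 1 / Real.log 2) + 2 / Real.log 2, c, by positivity, hc0, ?_⟩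
  intro N K g D hN hg hMN hD hc A t u hu hP hα hs
  obtain ⟨hterm, hmain⟩ := core κ C₁ c₁ hC₁ hH δ s hδ N K g D hN hg hMN hD A t u hu hP hα hs
  have : NeZero N := ⟨hN.ne'⟩
  have hNpos : (0 : ℝ) < N := by exact_mod_cast hN
  have hApos : (0 : ℝ) < A.card := by
    obtain ⟨x, hx⟩ := nonempty_digitSet N K g D fun i hi => (hD i hi).1
    exact_mod_cast Finset.card_pos.mpr ⟨_, hP x hx⟩
  obtain ⟨l, hl⟩ : ∃ l : ℝ, l = Real.log ((N : ℝ) / A.card) := ⟨_, rfl⟩
  have h7 : Real.log 2 ≤ l := by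
    rw [hl]
    apply Real.log_le_log (by norm_num)
    rw [le_div_iff₀ hApos]
    rw [div_le_iff₀ hNpos] at hα
    linarith
  rw [← hl] at hterm hmain ⊢
  have hlpos : 0 < l := by linarith
  intro Λ hΛ hΛD
  rcases min_choice l (1 + Λ) with hmin | hmin <;> rw [hmin]
  · apply hmain (c / l) (by positivity)
    · rw [div_le_iff₀ hlpos]
      linarith
    · intro i hi
      rcases hc i hi with h | h
      · left
        refine ⟨h, ?_⟩
        have h1 := hterm i hi
        have h2 : 1 ≤ 1 / Real.log 2 * l := by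
          rw [div_mul_eq_mul_div, one_mul, le_div_iff₀ hlog2]
          linarith
        calc 9 / 4 * (c / l) * (1 + Real.log (g i / (D i).card)) ≤ 9 / 4 * (c / l) * (1 / Real.log 2 * l + s * l) :=
              mul_le_mul_of_nonneg_left (by linarith) (by positivity)
          _ = 9 / 4 * c * (1 / Real.log 2 + s) := by field_simp
          _ ≤ c₁ := hcB
      · exact Or.inr h
  · apply hmain (c / (1 + Λ)) (by positivity)
    · rw [div_le_iff₀ (by linarith)]
      nlinarith
    · intro i hi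
      rcases hc i hi with h | h
      · rcases hΛD i hi with h' | h'
        · left
          refine ⟨h, ?_⟩
          have h1 := hD i hi
          have a3 : (0 : ℝ) < (D i).card := by exact_mod_cast h1.1.card_pos
          have a1 := hg i hi
          have a2 : (0 : ℝ) < g i := by
            have : 0 < g i := by omega
            exact_mod_cast this
          have h2 : Real.log (g i / (D i).card) ≤ Λ := by
            rw [Real.log_le_iff_le_exp (by positivity), div_le_iff₀ a3]
            have h3 := mul_le_mul_of_nonneg_left h' (Real.exp_pos Λ).le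
            rw [← mul_assoc, ← Real.exp_add, add_neg_cancel, Real.exp_zero, one_mul] at h3
            exact h3
          calc 9 / 4 * (c / (1 + Λ)) * (1 + Real.log (g i / (D i).card)) ≤ 9 / 4 * (c / (1 + Λ)) * (1 + Λ) :=
                mul_le_mul_of_nonneg_left (by linarith) (by positivity)
            _ = 9 / 4 * c := by
                field_simp
            _ ≤ c₁ := hcB'
        · exact Or.inr h'
      · exact Or.inr h

end Pool.Agent.Results.MP_169871_nt.DigitProductSets
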