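import Pool.Agent.Q285.SD.Main
import Pool.Agent.H217R3.AK.Bsg

/-!
# Q1 for sets of large additive energy, in particular for sets of small doubling

Let `A ⊆ ℤ/N` be a set of density `α ≤ 1/2` with additive energy `E(A) ≥ |A|³ / K`, where `E(A)` is the number of
quadruples `(a, b, c, d) ∈ A⁴` with `a + b = c + d`. The theorem says that `2A - 2A` contains a Bohr set with at most
`C (log (1/α) + F(K))` frequencies and of radius at least `c / (log (1/α) + F(K))`, where
`F(K) = (2K) ^ (16000000 (1 + log (1 + log (2K))))` does not depend on `N` and `α`. So the conclusion of Q1 holds for all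
`A` with `F(K) = O(log (1/α))`, that is for `E(A) ≥ |A|³ exp (- c log log (1/α) / log log log (1/α))`; in particular
for all sets with `E(A) ≥ |A|³ / K` with a fixed `K`, hence (Cauchy-Schwarz) for all sets with `|A + A| ≤ K |A|`.

Proof: by the Balog-Szemeredi-Gowers theorem `A` has a large subset of small doubling. By the structure theorem of
`H112R2` (a near-polynomial Freiman-Ruzsa theorem for abelian groups), this subset is covered by few translates of a
coset progression of dimension `O(log K)` that is not much larger; in `ℤ/N` the subgroup is itself contained in few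
translates of a progression of dimension one (`Q285/SD`). So `A` is dense on a translate of a proper progression, and
the local Bogolyubov theorem of `TH858/GP/Dense2` applies.
-/

set_option autoImplicit false

open scoped Pointwise

namespace Pool.Agent.Results.MP_169871_nt.LargeEnergy

open Pool.Agent

/-- The Bohr set `B(Γ, ε) = {x ∈ ℤ/N : ‖γ x / N‖ ≤ ε for all γ ∈ Γ}`; the norm is the distance to the nearest
integer. -/
def bohr {N : ℕ} (Γ : Finset (ZMod N)) (ε : ℝ) : Set (ZMod N) :=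
  {x | ∀ γ ∈ Γ, |((γ * x).val : ℝ) / (N : ℝ) - ((round (((γ * x).val : ℝ) / (N : ℝ)) : ℤ) : ℝ)| ≤ ε}

/-- The set `2A - 2A`. -/
def twoAMinusTwoA {N : ℕ} (A : Finset (ZMod N)) : Set (ZMod N) :=
  {x | ∃ a₁ ∈ A, ∃ a₂ ∈ A, ∃ a₃ ∈ A, ∃ a₄ ∈ A, x = a₁ + a₂ - a₃ - a₄}

/-- `F(K) = (2K) ^ (16000000 (1 + log (1 + log (2K))))`. -/
noncomputable def F (K : ℝ) : ℝ := (2 * K) ^ (16000000 * (1 + Real.log (1 + Real.log (2 * K))))

/-- **Q1 for sets of large additive energy**: there are absolute constants `C, c > 0` such that for every `N ≥ 1`,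
every nonempty `A ⊆ ℤ/N` of density `α ≤ 1/2` and every `K ≥ 1` with `E(A) ≥ |A|³ / K` the set `2A - 2A` contains a
Bohr set `B(Γ, ε)` with `|Γ| ≤ C (log (1/α) + F(K))` and `ε ≥ c / (log (1/α) + F(K))`. Here `E(A) = A.addEnergy A` is the
number of quadruples `(a, b, c, d) ∈ A⁴` with `a + b = c + d`. -/
theorem result : ∃ C c : ℝ, 0 < C ∧ 0 < c ∧ ∀ N : ℕ, 0 < N → ∀ A : Finset (ZMod N), A.Nonempty →
    (A.card : ℝ) / (N : ℝ) ≤ 1 / 2 → ∀ K : ℝ, 1 ≤ K → (A.card : ℝ) ^ 3 / K ≤ (A.addEnergy A : ℝ) →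
    ∃ (Γ : Finset (ZMod N)) (ε : ℝ), 0 < ε ∧
      (Γ.card : ℝ) ≤ C * (Real.log ((N : ℝ) / (A.card : ℝ)) + F K) ∧
      c / (Real.log ((N : ℝ) / (A.card : ℝ)) + F K) ≤ ε ∧
      bohr Γ ε ⊆ twoAMinusTwoA A := by
  obtain ⟨C, c, hC, hc, hmain⟩ := Q285.SD.Main.small_doubling
  refine ⟨9 * C, c / 9, by positivity, by positivity, ?_⟩
  intro N hN A hAne hα K hK1 hE
  have hNpos : (0 : ℝ) < N := by exact_mod_cast hN
  have hApos : (0 : ℝ) < A.card := by exact_mod_cast hAne.card_pos
  have hE' : (A.card : ℝ) ^ 3 ≤ K * (A.addEnergy A : ℕ) := by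
    rw [div_le_iff₀ (by linarith)] at hE
    linarith
  obtain ⟨B, hBA, hBne, hAB, hBB⟩ := H217R3.AK.bsg A hAne K (by linarith) hE'
  have hBpos : (0 : ℝ) < B.card := by exact_mod_cast hBne.card_pos
  have hBα : (B.card : ℝ) / (N : ℝ) ≤ 1 / 2 := by
    refine le_trans ?_ hα
    have h1 : (B.card : ℝ) ≤ A.card := by exact_mod_cast Finset.card_le_card hBA
    gcongr
  -- the doubling of `B`
  obtain ⟨D, hD⟩ : ∃ D : ℝ, D = 2 ^ 22 * K ^ 10 := ⟨_, rfl⟩
  rw [← hD] at hBB
  have hdoub : ((B + B).card : ℝ) ≤ D ^ 2 * B.card := by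
    have h1 := Finset.pluennecke_ruzsa_inequality_nsmul_sub hBne B 2
    rw [two_nsmul] at h1
    have h2 : ((B + B).card : ℝ) ≤ ((((B - B).card : ℝ) / (B.card : ℝ)) ^ 2) * B.card := by
      have h3 : (((B + B).card : ℚ≥0) : ℝ) ≤ (((((B - B).card : ℚ≥0) / (B.card : ℚ≥0)) ^ 2 * B.card : ℚ≥0) : ℝ) := by
        exact_mod_cast h1
      push_cast at h3
      exact h3
    refine h2.trans ?_
    have h4 : ((B - B).card : ℝ) / (B.card : ℝ) ≤ D := by
      rw [div_le_iff₀ hBpos]
      exact hBB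
    gcongr
  obtain ⟨Γ, ε, hε, hΓ, hε', hsub⟩ := hmain N hN B hBne hBα (D ^ 2) hdoub
  obtain ⟨l, hl⟩ : ∃ l : ℝ, l = Real.log ((N : ℝ) / (A.card : ℝ)) := ⟨_, rfl⟩
  rw [← hl]
  have hl0 : 0 < l := by
    have h2 : (2 : ℝ) ≤ (N : ℝ) / (A.card : ℝ) := by
      rw [div_le_iff₀ hNpos] at hα
      rw [le_div_iff₀ hApos]
      linarith
    rw [hl]
    exact Real.log_pos (by linarith)
  have hlog1 : 0 ≤ Real.log (2 * K) := Real.log_nonneg (by linarith)
  have hlog2 : 0 ≤ Real.log (1 + Real.log (2 * K)) := Real.log_nonneg (by linarith)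
  have hF8 : 8 * K ≤ F K := by
    unfold F
    calc 8 * K ≤ (2 * K) ^ (3 : ℝ) := by
          rw [show (3 : ℝ) = ((3 : ℕ) : ℝ) by norm_num, Real.rpow_natCast]
          nlinarith [mul_self_nonneg (K - 1), mul_self_nonneg K, pow_pos (show 0 < K by linarith) 3]
      _ ≤ (2 * K) ^ (16000000 * (1 + Real.log (1 + Real.log (2 * K)))) :=
          Real.rpow_le_rpow_of_exponent_le (by linarith) (by linarith)
  have hF0 : 0 < F K := by linarith
  have hlB : Real.log ((N : ℝ) / (B.card : ℝ)) ≤ l + 8 * K := by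
    have h1 : (N : ℝ) / (B.card : ℝ) ≤ 8 * K * ((N : ℝ) / (A.card : ℝ)) := by
      rw [div_le_iff₀ hBpos]
      calc (N : ℝ) = (N : ℝ) / (A.card : ℝ) * A.card := by field_simp
        _ ≤ (N : ℝ) / (A.card : ℝ) * (8 * K * B.card) := mul_le_mul_of_nonneg_left hAB (by positivity)
        _ = _ := by ring
    calc Real.log ((N : ℝ) / (B.card : ℝ)) ≤ Real.log (8 * K * ((N : ℝ) / (A.card : ℝ))) :=
          Real.log_le_log (by positivity) h1
      _ = Real.log (8 * K) + l := by rw [Real.log_mul (by positivity) (by positivity), hl]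
      _ ≤ l + 8 * K := by
          have := Real.log_le_sub_one_of_pos (show 0 < 8 * K by linarith)
          linarith
  have hFD : Q285.SD.Main.F (D ^ 2) ≤ F K := by
    unfold Q285.SD.Main.F F
    have h1 : 2 * D ^ 2 ≤ (2 * K) ^ 45 := by
      rw [hD]
      have h2 : K ^ 20 ≤ K ^ 45 := pow_le_pow_right₀ hK1 (by norm_num)
      calc 2 * (2 ^ 22 * K ^ 10) ^ 2 = 2 ^ 45 * K ^ 20 := by ring
        _ ≤ 2 ^ 45 * K ^ 45 := by linarith
        _ = (2 * K) ^ 45 := by ring
    have hD1 : 1 ≤ 2 * D ^ 2 := by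
      rw [hD]
      have h2 : 1 ≤ K ^ 20 := one_le_pow₀ hK1
      calc (1 : ℝ) ≤ 2 ^ 45 * 1 := by norm_num
        _ ≤ 2 ^ 45 * K ^ 20 := by linarith
        _ = 2 * (2 ^ 22 * K ^ 10) ^ 2 := by ring
    have h3 : Real.log (2 * D ^ 2) ≤ 45 * Real.log (2 * K) := by
      calc Real.log (2 * D ^ 2) ≤ Real.log ((2 * K) ^ 45) := Real.log_le_log (by linarith) h1
        _ = 45 * Real.log (2 * K) := by rw [Real.log_pow]; norm_num
    have h3' : 0 ≤ Real.log (2 * D ^ 2) := Real.log_nonneg hD1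
    have h4 : Real.log (1 + Real.log (2 * D ^ 2)) ≤ 4 + Real.log (1 + Real.log (2 * K)) := by
      calc Real.log (1 + Real.log (2 * D ^ 2)) ≤ Real.log (45 * (1 + Real.log (2 * K))) :=
            Real.log_le_log (by linarith) (by linarith)
        _ = Real.log 45 + Real.log (1 + Real.log (2 * K)) := by
            rw [Real.log_mul (by norm_num) (by linarith)]
        _ ≤ 4 + Real.log (1 + Real.log (2 * K)) := by
            have h5 : Real.log 45 ≤ 4 := by
              rw [Real.log_le_iff_le_exp (by norm_num)]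
              have h6 : Real.exp 4 = Real.exp 1 ^ 4 := by rw [← Real.exp_nat_mul]; norm_num
              rw [h6]
              have h7 := Real.exp_one_gt_d9
              calc (45 : ℝ) ≤ 2.7 ^ 4 := by norm_num
                _ ≤ Real.exp 1 ^ 4 := pow_le_pow_left₀ (by norm_num) (by linarith) 4
            linarith
    have h4' : 0 ≤ Real.log (1 + Real.log (2 * D ^ 2)) := Real.log_nonneg (by linarith)
    calc (2 * D ^ 2) ^ (68000 * (1 + Real.log (1 + Real.log (2 * D ^ 2))))
        ≤ (2 * D ^ 2) ^ (68000 * (5 + Real.log (1 + Real.log (2 * K)))) :=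
          Real.rpow_le_rpow_of_exponent_le hD1 (by linarith)
      _ ≤ ((2 * K) ^ 45) ^ (68000 * (5 + Real.log (1 + Real.log (2 * K)))) :=
          Real.rpow_le_rpow (by linarith) h1 (by positivity)
      _ = (2 * K) ^ (45 * (68000 * (5 + Real.log (1 + Real.log (2 * K))))) := by
          rw [← Real.rpow_natCast, ← Real.rpow_mul (by linarith)]
          norm_num
      _ ≤ (2 * K) ^ (16000000 * (1 + Real.log (1 + Real.log (2 * K)))) :=
          Real.rpow_le_rpow_of_exponent_le (by linarith) (by linarith)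
  have hF1 : 0 < Real.log ((N : ℝ) / (B.card : ℝ)) + Q285.SD.Main.F (D ^ 2) := by
    have h1 : 0 < Q285.SD.Main.F (D ^ 2) := by
      unfold Q285.SD.Main.F
      apply Real.rpow_pos_of_pos
      rw [hD]
      positivity
    have h2 : 0 ≤ Real.log ((N : ℝ) / (B.card : ℝ)) := by
      apply Real.log_nonneg
      rw [le_div_iff₀ hBpos]
      rw [div_le_iff₀ hNpos] at hBα
      linarith
    linarith
  have hsum : Real.log ((N : ℝ) / (B.card : ℝ)) + Q285.SD.Main.F (D ^ 2) ≤ 9 * (l + F K) := by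
    linarith
  refine ⟨Γ, ε, hε, ?_, ?_, ?_⟩
  · calc (Γ.card : ℝ) ≤ _ := hΓ
      _ ≤ C * (9 * (l + F K)) := mul_le_mul_of_nonneg_left hsum hC.le
      _ = 9 * C * (l + F K) := by ring
  · refine le_trans ?_ hε'
    rw [div_div]
    exact div_le_div_of_nonneg_left hc.le hF1 hsum
  · intro x hx
    obtain ⟨a₁, h3, a₂, h4, a₃, h5, a₄, h6, h7⟩ := hsub hx
    exact ⟨a₁, hBA h3, a₂, hBA h4, a₃, hBA h5, a₄, hBA h6, h7⟩

end Pool.Agent.Results.MP_169871_nt.LargeEnergy
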