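import Mathlib
import Pool.Agent.Q166.RF.Free

/-!
# The rank-free form of Q1, and Q1 from almost periods and from small sumsets with a large set

Write `L = log (1/α)`. The theorem says that Q1 is equivalent to its rank-free form: there is `C` such that for every
nonempty `A ⊆ ℤ/N` of density `α ≤ 1/2` the set `2A - 2A` contains a Bohr set `B(Γ, ρ)` with *any* number of
frequencies, `ρ ≤ (2 + L)^(-2)` and density at least `exp (- C L log (2 + L))`; and this holds set by set. Moreover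
Q1's conclusion holds for `A` if `2A - 2A` contains a Bohr set of any rank, of any radius `≤ 1/6` and of density
`α ^ O(1)`, or if a function supported on `A`, on `A + A` or on `A - A` has `α ^ O(1) N` almost periods, for example if
`|S + B| ≤ (3/2 - δ) |S|` for one of these sets `S` and some set `B` of density `α ^ O(1)`.

* (1) *Rank reduction.* A Bohr set of any rank, of any radius `ρ ≤ 1/6` and of density `e^{-ℓ}` contains a Bohr set of
  radius `1 / (8 R)` with at most `352 ℓ + 201` frequencies, for every `R ≥ 8 ℓ + 3`.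
* (2) If `⟨g, g(· + x)⟩ ≥ (1/2 + δ) ‖g‖²` for all `x` in a set `T` of density `τ`, then the differences of the support
  of `g` contain a Bohr set with at most `(2/δ²) log (1/τ)` frequencies and radius `≫ δ³ / (1 + log (1/τ))`; there is
  no loss of logarithms.
* (3), (4), (5), (6) The consequences for Q1.

Tools: Riesz products (Chang's theorem), maximal dissociated sets, the theorem on convex Bohr sets behind the sibling
file `ProperProgressions` (`Pool/Agent/TH858/CB`, `Pool/Agent/TH858/GP/Coset`), and the description of a Bohr set of any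
rank as the lattice points of a convex body, with the growth bound for its dimension and the discrete John theorem
(`Pool/Agent/H112R2`).
-/

set_option autoImplicit false

open scoped Pointwise

namespace Pool.Agent.Results.MP_169871_nt.RankFreeCriterion

open Pool.Agent.TH858 Pool.Agent.Q166.RF

/-- The Bohr set `B(Γ, ε) = {x ∈ ℤ/N : ‖γ x / N‖ ≤ ε for all γ ∈ Γ}`; the norm is the distance to the nearest
integer. -/
def bohr {N : ℕ} (Γ : Finset (ZMod N)) (ε : ℝ) : Set (ZMod N) :=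
  {x | ∀ γ ∈ Γ, |((γ * x).val : ℝ) / (N : ℝ) - ((round (((γ * x).val : ℝ) / (N : ℝ)) : ℤ) : ℝ)| ≤ ε}

/-- The set `2A - 2A`. -/
def twoAMinusTwoA {N : ℕ} (A : Finset (ZMod N)) : Set (ZMod N) :=
  {x | ∃ a₁ ∈ A, ∃ a₂ ∈ A, ∃ a₃ ∈ A, ∃ a₄ ∈ A, x = a₁ + a₂ - a₃ - a₄}

/-- The conclusion of Q1 for the set `A` with the constants `K` and `c`: there is a Bohr set `B(Γ, ε) ⊆ 2A - 2A` with
`|Γ| ≤ K log (1/α)` and `ε ≥ c / log (1/α)`, where `α = |A| / N`. -/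
def HasBohr {N : ℕ} (A : Finset (ZMod N)) (K c : ℝ) : Prop :=
  ∃ (Γ : Finset (ZMod N)) (ε : ℝ), 0 < ε ∧
    (Γ.card : ℝ) ≤ K * Real.log ((N : ℝ) / (A.card : ℝ)) ∧
    c / Real.log ((N : ℝ) / (A.card : ℝ)) ≤ ε ∧
    bohr Γ ε ⊆ twoAMinusTwoA A

/-- Every element of `T` is a `(1/2 + δ)`-almost period of `g`:
`∑ g(z) g(z + x) ≥ (1/2 + δ) ∑ g(z)²` for `x ∈ T`. -/
def AlmostPeriods {N : ℕ} [NeZero N] (g : ZMod N → ℝ) (δ : ℝ) (T : Finset (ZMod N)) : Prop :=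
  ∀ x ∈ T, (1 / 2 + δ) * ∑ z, g z ^ 2 ≤ ∑ z, g z * g (z + x)

/-- The rank-free form of the conclusion of Q1 for the set `A` with the constant `C`: with `L = log (1/α)`,
`α = |A| / N`, there is a Bohr set `B(Γ, ρ) ⊆ 2A - 2A` with any number of frequencies such that
`0 < ρ ≤ (2 + L)^(-2)` and `|B(Γ, ρ)| ≥ exp (- C L log (2 + L)) N`. -/
def RankFree {N : ℕ} (A : Finset (ZMod N)) (C : ℝ) : Prop :=
  ∃ (Γ : Finset (ZMod N)) (ρ : ℝ), 0 < ρ ∧
    ρ ≤ (2 + Real.log ((N : ℝ) / (A.card : ℝ))) ^ (-2 : ℝ) ∧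
    Real.exp (-(C * Real.log ((N : ℝ) / (A.card : ℝ)) * Real.log (2 + Real.log ((N : ℝ) / (A.card : ℝ))))) * N ≤
      ((bohr Γ ρ).ncard : ℝ) ∧
    bohr Γ ρ ⊆ twoAMinusTwoA A

theorem bohr_eq {N : ℕ} [NeZero N] (Γ : Finset (ZMod N)) (ε : ℝ) : bohr Γ ε = (BS Γ ε : Set (ZMod N)) := by
  ext x
  rw [Finset.mem_coe, mem_BS]
  rfl

theorem sub_mem {N : ℕ} (A : Finset (ZMod N)) (S : Finset (ZMod N)) (hS : S = A ∨ S = A + A ∨ S = A - A)
    (z x : ZMod N) (hz : z ∈ S) (hx : z + x ∈ S) : x ∈ twoAMinusTwoA A := by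
  rcases hS with rfl | rfl | rfl
  · exact ⟨z + x, hx, z, hz, z, hz, z, hz, by ring⟩
  · obtain ⟨a, ha, b, hb, h1⟩ := Finset.mem_add.1 hz
    obtain ⟨a', ha', b', hb', h2⟩ := Finset.mem_add.1 hx
    refine ⟨a', ha', b', hb', a, ha, b, hb, ?_⟩
    calc x = (z + x) - z := by ring
      _ = a' + b' - a - b := by rw [← h2, ← h1]; ring
  · obtain ⟨a, ha, b, hb, h1⟩ := Finset.mem_sub.1 hz
    obtain ⟨a', ha', b', hb', h2⟩ := Finset.mem_sub.1 hx
    refine ⟨a', ha', b, hb, a, ha, b', hb', ?_⟩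
    calc x = (z + x) - z := by ring
      _ = a' + b - a - b' := by rw [← h2, ← h1]; ring

theorem part_one (N : ℕ) [NeZero N] (Γ₀ : Finset (ZMod N)) (ρ : ℝ) (hρ : 0 < ρ) (hρ6 : ρ ≤ 1 / 6) (R : ℝ)
    (hR : 8 * Real.log ((N : ℝ) / ((bohr Γ₀ ρ).ncard : ℝ)) + 3 ≤ R) :
    ∃ Γ : Finset (ZMod N),
      (Γ.card : ℝ) ≤ 352 * Real.log ((N : ℝ) / ((bohr Γ₀ ρ).ncard : ℝ)) + 201 ∧
      bohr Γ (1 / (8 * R)) ⊆ bohr Γ₀ ρ := by
  rw [bohr_eq, Set.ncard_coe_finset] at hR ⊢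
  obtain ⟨Γ, h1, h2⟩ := small Γ₀ ρ hρ hρ6 R hR
  refine ⟨Γ, h1, ?_⟩
  rw [bohr_eq]
  exact_mod_cast h2

theorem log_ge {N : ℕ} [NeZero N] (A : Finset (ZMod N)) (hA : A.Nonempty) (hα : (A.card : ℝ) / (N : ℝ) ≤ 1 / 2) :
    Real.log 2 ≤ Real.log ((N : ℝ) / (A.card : ℝ)) := by
  have hNpos : (0 : ℝ) < N := by exact_mod_cast Nat.pos_of_ne_zero (NeZero.ne N)
  have hApos : (0 : ℝ) < A.card := by exact_mod_cast hA.card_pos
  apply Real.log_le_log (by norm_num)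
  rw [div_le_iff₀ hNpos] at hα
  rw [le_div_iff₀ hApos]
  linarith

theorem part_four (C : ℝ) (hC : 0 < C) : ∃ K c : ℝ, 0 < K ∧ 0 < c ∧
    ∀ (N : ℕ) [NeZero N] (A : Finset (ZMod N)), A.Nonempty → (A.card : ℝ) / (N : ℝ) ≤ 1 / 2 →
      RankFree A C → HasBohr A K c := by
  obtain ⟨K, c, hK, hc, h⟩ := forward C hC
  refine ⟨K, c, hK, hc, fun N _ A hA hα hrf => ?_⟩
  obtain ⟨Γ₀, ρ, hρ, hρL, hcard, hsub⟩ := hrf
  have hL := log_ge A hA hα
  have hNpos : (0 : ℝ) < N := by exact_mod_cast Nat.pos_of_ne_zero (NeZero.ne N)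
  obtain ⟨L, hLdef⟩ : ∃ L : ℝ, L = Real.log ((N : ℝ) / (A.card : ℝ)) := ⟨_, rfl⟩
  rw [← hLdef] at hρL hcard hL
  have hlog2 := Real.log_two_gt_d9
  have hL0 : 0 < L := by linarith
  rw [bohr_eq, Set.ncard_coe_finset] at hcard
  have hBpos : (0 : ℝ) < (BS Γ₀ ρ).card := by exact_mod_cast (BS_nonempty Γ₀ hρ.le).card_pos
  have hlog : Real.log ((N : ℝ) / ((BS Γ₀ ρ).card : ℝ)) ≤ C * L * Real.log (2 + L) := by
    rw [Real.log_le_iff_le_exp (by positivity), div_le_iff₀ hBpos]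
    rw [Real.exp_neg, inv_mul_le_iff₀ (Real.exp_pos _)] at hcard
    exact hcard
  obtain ⟨Γ, h1, h2⟩ := h N Γ₀ ρ L hρ hL hρL hlog
  refine ⟨Γ, c / L, by positivity, ?_, ?_, ?_⟩
  · rw [← hLdef]; exact h1
  · rw [← hLdef]
  · refine Set.Subset.trans ?_ hsub
    rw [bohr_eq, bohr_eq]
    exact_mod_cast h2

theorem part_five (K c : ℝ) (hK : 0 < K) (hc : 0 < c) : ∃ C : ℝ, 0 < C ∧
    ∀ (N : ℕ) [NeZero N] (A : Finset (ZMod N)), A.Nonempty → (A.card : ℝ) / (N : ℝ) ≤ 1 / 2 →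
      HasBohr A K c → RankFree A C := by
  obtain ⟨C, hC, h⟩ := backward K c hK hc
  refine ⟨C, hC, fun N _ A hA hα hb => ?_⟩
  obtain ⟨Γ, ε, hε, h1, h2, h3⟩ := hb
  have hL := log_ge A hA hα
  obtain ⟨ρ, h4, h5, h6, h7⟩ := h N Γ ε _ hL h1 h2
  refine ⟨Γ, ρ, h4, h5, ?_, ?_⟩
  · rw [bohr_eq, Set.ncard_coe_finset]
    exact h7
  · exact Set.Subset.trans (fun x hx γ hγ => (hx γ hγ).trans h6) h3

theorem part_two (N : ℕ) [NeZero N] (g : ZMod N → ℝ) (hg : ∃ z, g z ≠ 0) (δ : ℝ) (hδ : 0 < δ) (hδ2 : δ ≤ 1 / 2)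
    (T : Finset (ZMod N)) (hT : T.Nonempty) (hper : AlmostPeriods g δ T) :
    ∃ Γ : Finset (ZMod N),
      (Γ.card : ℝ) ≤ 2 / δ ^ 2 * Real.log ((N : ℝ) / (T.card : ℝ)) ∧
      bohr Γ (δ / (5 * (2 / δ ^ 2 * Real.log ((N : ℝ) / (T.card : ℝ)) + 1))) ⊆
        {x | ∃ z, g z ≠ 0 ∧ g (z + x) ≠ 0} := by
  obtain ⟨Γ, h1, h2⟩ := periods g hg δ hδ hδ2 T hT hper
  refine ⟨Γ, h1, fun x hx => h2 x _ (fun l hl => hx l hl) ?_⟩
  have hTpos : (0 : ℝ) < T.card := by exact_mod_cast hT.card_pos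
  have h3 : (0 : ℝ) ≤ Γ.card := Nat.cast_nonneg _
  set u := 2 / δ ^ 2 * Real.log ((N : ℝ) / (T.card : ℝ)) with hu
  have h4 : 0 ≤ u := h3.trans h1
  have h5 : (Γ.card : ℝ) * (δ / (5 * (u + 1))) ≤ (u + 1) * (δ / (5 * (u + 1))) := by
    gcongr
    linarith
  refine h5.trans (le_of_eq ?_)
  field_simp

theorem part_three :
    ∀ C δ : ℝ, 0 < C → 0 < δ → δ ≤ 1 / 2 → ∃ K c : ℝ, 0 < K ∧ 0 < c ∧
      ∀ (N : ℕ) [NeZero N] (A : Finset (ZMod N)), A.Nonempty → (A.card : ℝ) / (N : ℝ) ≤ 1 / 2 →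
        -- a Bohr set of any rank
        ((∃ (Γ₀ : Finset (ZMod N)) (ρ : ℝ), 0 < ρ ∧ ρ ≤ 1 / 6 ∧
            ((A.card : ℝ) / (N : ℝ)) ^ C * N ≤ ((bohr Γ₀ ρ).ncard : ℝ) ∧ bohr Γ₀ ρ ⊆ twoAMinusTwoA A) ∨
        -- many almost periods of a function on `S ∈ {A, A + A, A - A}`
          (∃ S : Finset (ZMod N), (S = A ∨ S = A + A ∨ S = A - A) ∧ ∃ g : ZMod N → ℝ, (∃ z, g z ≠ 0) ∧
            (∀ z, z ∉ S → g z = 0) ∧ ∃ T : Finset (ZMod N),
            ((A.card : ℝ) / (N : ℝ)) ^ C * N ≤ (T.card : ℝ) ∧ AlmostPeriods g δ T) ∨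
        -- a small sumset of `S ∈ {A, A + A, A - A}` with a large set
          (∃ S : Finset (ZMod N), (S = A ∨ S = A + A ∨ S = A - A) ∧ ∃ B : Finset (ZMod N),
            ((A.card : ℝ) / (N : ℝ)) ^ C * N ≤ (B.card : ℝ) ∧
            ((S + B).card : ℝ) ≤ (3 / 2 - δ) * (S.card : ℝ))) →
        HasBohr A K c := by
  intro C δ hC hδ hδ2
  set K : ℝ := (352 * C + 302) + 2 * C / δ ^ 2 with hK
  set c : ℝ := min (1 / (8 * (8 * C + 5))) (δ / (5 * (2 * C / δ ^ 2 + 2))) with hc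
  have hKpos : 0 < K := by positivity
  have hcpos : 0 < c := lt_min (by positivity) (by positivity)
  refine ⟨K, c, hKpos, hcpos, ?_⟩
  intro N _ A hA hα hyp
  have hNpos : (0 : ℝ) < N := by exact_mod_cast Nat.pos_of_ne_zero (NeZero.ne N)
  have hApos : (0 : ℝ) < A.card := by exact_mod_cast hA.card_pos
  have h2 : (2 : ℝ) ≤ (N : ℝ) / (A.card : ℝ) := by
    rw [div_le_iff₀ hNpos] at hα
    rw [le_div_iff₀ hApos]
    linarith
  set L : ℝ := Real.log ((N : ℝ) / (A.card : ℝ)) with hL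
  have hLlog : Real.log 2 ≤ L := Real.log_le_log (by norm_num) h2
  have hlog2 := Real.log_two_gt_d9
  have hL0 : 0 < L := by linarith
  have hL3 : 2 ≤ 3 * L := by linarith
  -- a large set has a small logarithm
  have hlarge : ∀ s : ℕ, ((A.card : ℝ) / (N : ℝ)) ^ C * N ≤ (s : ℝ) →
      (0 : ℝ) < s ∧ Real.log ((N : ℝ) / (s : ℝ)) ≤ C * L := by
    intro s hs
    have hpos : 0 < ((A.card : ℝ) / (N : ℝ)) ^ C * N := by positivity
    have hs0 : (0 : ℝ) < s := lt_of_lt_of_le hpos hs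
    refine ⟨hs0, ?_⟩
    have h3 : (N : ℝ) / s ≤ ((N : ℝ) / (A.card : ℝ)) ^ C := by
      rw [div_le_iff₀ hs0]
      have h4 : ((N : ℝ) / (A.card : ℝ)) ^ C * ((A.card : ℝ) / (N : ℝ)) ^ C = 1 := by
        rw [← Real.mul_rpow (by positivity) (by positivity)]
        have : (N : ℝ) / (A.card : ℝ) * ((A.card : ℝ) / (N : ℝ)) = 1 := by field_simp
        rw [this, Real.one_rpow]
      calc (N : ℝ) = ((N : ℝ) / (A.card : ℝ)) ^ C * (((A.card : ℝ) / (N : ℝ)) ^ C * N) := by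
            rw [← mul_assoc, h4, one_mul]
        _ ≤ ((N : ℝ) / (A.card : ℝ)) ^ C * s := by gcongr
    calc Real.log ((N : ℝ) / (s : ℝ)) ≤ Real.log (((N : ℝ) / (A.card : ℝ)) ^ C) :=
          Real.log_le_log (by positivity) h3
      _ = C * L := by rw [Real.log_rpow (by positivity)]
  -- almost periods
  have hperiods : ∀ S : Finset (ZMod N), (S = A ∨ S = A + A ∨ S = A - A) → ∀ g : ZMod N → ℝ, (∃ z, g z ≠ 0) →
      (∀ z, z ∉ S → g z = 0) → ∀ T : Finset (ZMod N), T.Nonempty →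
      Real.log ((N : ℝ) / (T.card : ℝ)) ≤ C * L → AlmostPeriods g δ T → HasBohr A K c := by
    intro S hS g hg hgS T hT hTlog hper
    obtain ⟨Γ, h3, h4⟩ := part_two N g hg δ hδ hδ2 T hT hper
    refine ⟨Γ, c / L, by positivity, ?_, le_refl _, ?_⟩
    · calc (Γ.card : ℝ) ≤ 2 / δ ^ 2 * Real.log ((N : ℝ) / (T.card : ℝ)) := h3
        _ ≤ 2 / δ ^ 2 * (C * L) := by gcongr
        _ = 2 * C / δ ^ 2 * L := by ring
        _ ≤ K * L := by
            have : 2 * C / δ ^ 2 ≤ K := by rw [hK]; linarith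
            gcongr
    · intro x hx
      have h5 : c / L ≤ δ / (5 * (2 / δ ^ 2 * Real.log ((N : ℝ) / (T.card : ℝ)) + 1)) := by
        have h6 : c ≤ δ / (5 * (2 * C / δ ^ 2 + 2)) := min_le_right _ _
        have hu0 : 0 ≤ Real.log ((N : ℝ) / (T.card : ℝ)) := by
          have hTpos : (0 : ℝ) < T.card := by exact_mod_cast hT.card_pos
          apply Real.log_nonneg
          rw [le_div_iff₀ hTpos, one_mul]
          have := Finset.card_le_univ T
          rw [ZMod.card] at this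
          exact_mod_cast this
        have h7 : 5 * (2 / δ ^ 2 * Real.log ((N : ℝ) / (T.card : ℝ)) + 1) ≤ 5 * (2 * C / δ ^ 2 + 2) * L := by
          have h8 : 2 / δ ^ 2 * Real.log ((N : ℝ) / (T.card : ℝ)) ≤ 2 / δ ^ 2 * (C * L) := by gcongr
          have h9 : 2 / δ ^ 2 * (C * L) = 2 * C / δ ^ 2 * L := by ring
          rw [h9] at h8
          nlinarith
        have h10 : 0 < 5 * (2 / δ ^ 2 * Real.log ((N : ℝ) / (T.card : ℝ)) + 1) := by positivity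
        calc c / L ≤ (δ / (5 * (2 * C / δ ^ 2 + 2))) / L := by gcongr
          _ = δ / (5 * (2 * C / δ ^ 2 + 2) * L) := by rw [div_div]
          _ ≤ _ := by gcongr
      obtain ⟨z, hz1, hz2⟩ := h4 (show x ∈ bohr Γ _ from fun γ hγ => (hx γ hγ).trans h5)
      refine sub_mem A S hS z x ?_ ?_
      · by_contra hcon; exact hz1 (hgS _ hcon)
      · by_contra hcon; exact hz2 (hgS _ hcon)
  rcases hyp with ⟨Γ₀, ρ, hρ1, hρ2, hcard, hsub⟩ | ⟨S, hS, g, hg, hgS, T, hT, hper⟩ | ⟨S, hS, B, hB, hSB⟩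
  · -- Bohr sets
    obtain ⟨hs0, hslog⟩ := hlarge _ hcard
    set R : ℝ := (8 * C + 5) * L with hR
    have hRpos : 0 < R := by positivity
    have hR2 : 8 * Real.log ((N : ℝ) / ((bohr Γ₀ ρ).ncard : ℝ)) + 3 ≤ R := by
      rw [hR]; nlinarith
    obtain ⟨Γ, h3, h4⟩ := part_one N Γ₀ ρ hρ1 hρ2 R hR2
    refine ⟨Γ, 1 / (8 * R), by positivity, ?_, ?_, h4.trans hsub⟩
    · calc (Γ.card : ℝ) ≤ 352 * Real.log ((N : ℝ) / ((bohr Γ₀ ρ).ncard : ℝ)) + 201 := h3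
        _ ≤ 352 * (C * L) + 302 * L := by linarith
        _ = (352 * C + 302) * L := by ring
        _ ≤ K * L := by
            have : 352 * C + 302 ≤ K := by rw [hK]; linarith [show 0 < 2 * C / δ ^ 2 by positivity]
            gcongr
    · have h5 : c ≤ 1 / (8 * (8 * C + 5)) := min_le_left _ _
      calc c / L ≤ (1 / (8 * (8 * C + 5))) / L := by gcongr
        _ = 1 / (8 * R) := by rw [hR, div_div]; congr 1; ring
  · -- almost periods
    obtain ⟨hs0, hslog⟩ := hlarge _ hT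
    have hTne : T.Nonempty := by
      rw [← Finset.card_pos]; exact_mod_cast hs0
    exact hperiods S hS g hg hgS T hTne hslog hper
  · -- small sumsets
    obtain ⟨hs0, hslog⟩ := hlarge _ hB
    have hBne : B.Nonempty := by
      rw [← Finset.card_pos]; exact_mod_cast hs0
    obtain ⟨b₀, hb₀⟩ := hBne
    have hSne : S.Nonempty := by
      rcases hS with rfl | rfl | rfl
      · exact hA
      · exact hA.add hA
      · exact hA.sub hA
    classical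
    refine hperiods S hS (fun z => if z ∈ S then 1 else 0) ?_ ?_ (B.image (· - b₀)) ?_ ?_ ?_
    · obtain ⟨z, hz⟩ := hSne
      exact ⟨z, by simp [hz]⟩
    · intro z hz
      simp [hz]
    · exact Finset.Nonempty.image ⟨b₀, hb₀⟩ _
    · rw [Finset.card_image_of_injective _ (sub_left_injective)]
      exact hslog
    · intro x hx
      obtain ⟨b, hb, rfl⟩ := Finset.mem_image.1 hx
      have h3 := count_periods S B b b₀ hb hb₀
      have h4 : ∑ z, (if z ∈ S then (1 : ℝ) else 0) ^ 2 = S.card := by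
        simp [ite_pow]
      have h5 : ∑ z, (if z ∈ S then (1 : ℝ) else 0) * (if z + (b - b₀) ∈ S then (1 : ℝ) else 0) =
          ((S.filter fun z => z + (b - b₀) ∈ S).card : ℝ) := by
        rw [Finset.card_filter]
        push_cast
        rw [← Finset.sum_filter_add_sum_filter_not Finset.univ (fun z => z ∈ S)]
        have h6 : ∑ z ∈ Finset.univ.filter (fun z => ¬ z ∈ S),
            (if z ∈ S then (1 : ℝ) else 0) * (if z + (b - b₀) ∈ S then (1 : ℝ) else 0) = 0 := by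
          refine Finset.sum_eq_zero fun z hz => ?_
          rw [Finset.mem_filter] at hz
          rw [if_neg hz.2, zero_mul]
        rw [h6, add_zero]
        have h7 : Finset.univ.filter (fun z => z ∈ S) = S := by ext; simp
        rw [h7]
        exact Finset.sum_congr rfl fun z hz => by rw [if_pos hz, one_mul]
      have h6 : ((Finset.image₂ (· + ·) S B).card : ℝ) = ((S + B).card : ℝ) := rfl
      simp only
      rw [h4, h5]
      rw [h6] at h3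
      linarith

/-- **Result.** -/
theorem result :
    -- (1) rank reduction
    (∀ (N : ℕ) [NeZero N] (Γ₀ : Finset (ZMod N)) (ρ R : ℝ), 0 < ρ → ρ ≤ 1 / 6 →
      8 * Real.log ((N : ℝ) / ((bohr Γ₀ ρ).ncard : ℝ)) + 3 ≤ R →
      ∃ Γ : Finset (ZMod N),
        (Γ.card : ℝ) ≤ 352 * Real.log ((N : ℝ) / ((bohr Γ₀ ρ).ncard : ℝ)) + 201 ∧
        bohr Γ (1 / (8 * R)) ⊆ bohr Γ₀ ρ) ∧
    -- (2) almost periods
    (∀ (N : ℕ) [NeZero N] (g : ZMod N → ℝ), (∃ z, g z ≠ 0) → ∀ δ : ℝ, 0 < δ → δ ≤ 1 / 2 →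
      ∀ T : Finset (ZMod N), T.Nonempty → AlmostPeriods g δ T →
      ∃ Γ : Finset (ZMod N),
        (Γ.card : ℝ) ≤ 2 / δ ^ 2 * Real.log ((N : ℝ) / (T.card : ℝ)) ∧
        bohr Γ (δ / (5 * (2 / δ ^ 2 * Real.log ((N : ℝ) / (T.card : ℝ)) + 1))) ⊆
          {x | ∃ z, g z ≠ 0 ∧ g (z + x) ≠ 0}) ∧
    -- (3) the consequences for Q1
    (∀ C δ : ℝ, 0 < C → 0 < δ → δ ≤ 1 / 2 → ∃ K c : ℝ, 0 < K ∧ 0 < c ∧
      ∀ (N : ℕ) [NeZero N] (A : Finset (ZMod N)), A.Nonempty → (A.card : ℝ) / (N : ℝ) ≤ 1 / 2 →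
        -- a Bohr set of any rank
        ((∃ (Γ₀ : Finset (ZMod N)) (ρ : ℝ), 0 < ρ ∧ ρ ≤ 1 / 6 ∧
            ((A.card : ℝ) / (N : ℝ)) ^ C * N ≤ ((bohr Γ₀ ρ).ncard : ℝ) ∧ bohr Γ₀ ρ ⊆ twoAMinusTwoA A) ∨
        -- many almost periods of a function on `S ∈ {A, A + A, A - A}`
          (∃ S : Finset (ZMod N), (S = A ∨ S = A + A ∨ S = A - A) ∧ ∃ g : ZMod N → ℝ, (∃ z, g z ≠ 0) ∧
            (∀ z, z ∉ S → g z = 0) ∧ ∃ T : Finset (ZMod N),
            ((A.card : ℝ) / (N : ℝ)) ^ C * N ≤ (T.card : ℝ) ∧ AlmostPeriods g δ T) ∨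
        -- a small sumset of `S ∈ {A, A + A, A - A}` with a large set
          (∃ S : Finset (ZMod N), (S = A ∨ S = A + A ∨ S = A - A) ∧ ∃ B : Finset (ZMod N),
            ((A.card : ℝ) / (N : ℝ)) ^ C * N ≤ (B.card : ℝ) ∧
            ((S + B).card : ℝ) ≤ (3 / 2 - δ) * (S.card : ℝ))) →
        HasBohr A K c) ∧
    -- (4) the rank-free form implies the conclusion of Q1
    (∀ C : ℝ, 0 < C → ∃ K c : ℝ, 0 < K ∧ 0 < c ∧
      ∀ (N : ℕ) [NeZero N] (A : Finset (ZMod N)), A.Nonempty → (A.card : ℝ) / (N : ℝ) ≤ 1 / 2 →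
        RankFree A C → HasBohr A K c) ∧
    -- (5) the conclusion of Q1 implies the rank-free form
    (∀ K c : ℝ, 0 < K → 0 < c → ∃ C : ℝ, 0 < C ∧
      ∀ (N : ℕ) [NeZero N] (A : Finset (ZMod N)), A.Nonempty → (A.card : ℝ) / (N : ℝ) ≤ 1 / 2 →
        HasBohr A K c → RankFree A C) ∧
    -- (6) Q1 is equivalent to the rank-free form of Q1
    ((∃ K c : ℝ, 0 < K ∧ 0 < c ∧ ∀ (N : ℕ) [NeZero N] (A : Finset (ZMod N)), A.Nonempty →
        (A.card : ℝ) / (N : ℝ) ≤ 1 / 2 → HasBohr A K c) ↔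
      (∃ C : ℝ, 0 < C ∧ ∀ (N : ℕ) [NeZero N] (A : Finset (ZMod N)), A.Nonempty →
        (A.card : ℝ) / (N : ℝ) ≤ 1 / 2 → RankFree A C)) := by
  refine ⟨fun N _ Γ₀ ρ R h1 h2 h3 => part_one N Γ₀ ρ h1 h2 R h3,
    fun N _ g hg δ h1 h2 T hT hper => part_two N g hg δ h1 h2 T hT hper, part_three, part_four, part_five, ?_, ?_⟩
  · rintro ⟨K, c, hK, hc, h⟩
    obtain ⟨C, hC, h'⟩ := part_five K c hK hc
    exact ⟨C, hC, fun N _ A hA hα => h' N A hA hα (h N A hA hα)⟩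
  · rintro ⟨C, hC, h⟩
    obtain ⟨K, c, hK, hc, h'⟩ := part_four C hC
    exact ⟨K, c, hK, hc, fun N _ A hA hα => h' N A hA hα (h N A hA hα)⟩

end Pool.Agent.Results.MP_169871_nt.RankFreeCriterion
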