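import Pool.Agent.Q215.BT.Last

/-!
# Q1 is equivalent to a statement about few exceptions at very sparse scales

Let `𝓜` be any infinite set of moduli (for instance a set of primes), `0 < δ ≤ 1`, and let `𝒦` be a set of positive
integers which meets every interval `[L, L ^ D]`, `L ≥ 2`, for some fixed `D` (for instance `𝒦 = {2 ^ 2 ^ j}`). The
theorem says that Q1 holds if and only if there is a constant `C` such that for every `k ∈ 𝒦` there are arbitrarily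
large `M ∈ 𝓜` with the following property: for all but fewer than `(M choose s) ^ (1 - δ)` of the `(M choose s)` sets
`B ⊆ ℤ/M` with `s = ⌊M / 2 ^ k⌋ + 1` elements the set `2B - 2B` contains a proper coset progression of dimension at most
`C k` and of density at least `(k + 1) ^ (- C k)`. The same holds with Bohr sets of dimension `≤ C k` and radius
`≥ c / k`. Q1 is also equivalent to its analogue for sets of integers of upper Banach density at least `β` and Bohr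
sets with real frequencies.

The proof has five parts.

* Transfer of the modulus (`Transfer`): `A ⊆ ℤ/N` is lifted to a set `A' ⊆ ℤ/M` with `|A'| / M ≥ |A| / (16 N)` such
  that a Bohr set `B(Γ', ε) ⊆ 2A' - 2A'` gives a Bohr set `B(Γ, 2ε/3) ⊆ 2A - 2A` with `|Γ| ≤ |Γ'| + 1`.
* Counting (`Few`, `Scale`): if `A` violates Q1, then all subsets of `A'` with `s` elements are exceptions, and there
  are more than `(M choose s) ^ (1 - δ)` of them if `k` is a large multiple (depending on `δ`) of `log (1/α)`.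
* Bohr sets and progressions (`Prog`): a Bohr set in `ℤ/M` contains a proper coset progression (discrete John theorem,
  `Pool/Agent/H112R2`), and conversely a proper coset progression contains a Bohr set of small dimension
  (`Pool/Agent/TH858/GP`, the starting file `ProperProgressions`).
* Products (`Str`, `Tens`, `Prod`, `Fin`, `Last`): for `k ∈ 𝒦` much larger than `log (1/α)` a product of about
  `k / log (1/α)` lifts of `A` to coprime moduli has density `2 ^ (- k)`. If its `2A - 2A` contains a Bohr set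
  `B(Γ, ε)` with `|Γ| ≤ C k`, `ε ≥ c / k`, then one of the projections of the Bohr sets `B(Γ, ε / 2 ^ t)` has small
  doubling `exp (O (log (1/α)))` and large density; the near-polynomial Freiman-Ruzsa theorem of `Pool/Agent/H112R2`
  (in a form in which the Bohr set found lies in a sumset) gives a proper coset progression of dimension
  `O (log (1/α))` in one of the factors.
* Integers (`Int`): compactness of the torus in one direction, rounding of the frequencies in the other.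
-/

set_option autoImplicit false

namespace Pool.Agent.Results.MP_169871_nt.SparseModuliFewExceptions

open Pool.Agent.Q215

/-- The Bohr set `B(Γ, ε) = {x ∈ ℤ/N : ‖γ x / N‖ ≤ ε for all γ ∈ Γ}`; the norm is the distance to the nearest
integer. -/
def bohr {N : ℕ} (Γ : Finset (ZMod N)) (ε : ℝ) : Set (ZMod N) :=
  {x | ∀ γ ∈ Γ, |((γ * x).val : ℝ) / (N : ℝ) - ((round (((γ * x).val : ℝ) / (N : ℝ)) : ℤ) : ℝ)| ≤ ε}

/-- The set `2A - 2A`. -/
def twoAMinusTwoA {N : ℕ} (A : Finset (ZMod N)) : Set (ZMod N) :=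
  {x | ∃ a₁ ∈ A, ∃ a₂ ∈ A, ∃ a₃ ∈ A, ∃ a₄ ∈ A, x = a₁ + a₂ - a₃ - a₄}

/-- The coset progression `H + {n_1 a_1 + … + n_d a_d : |n_i| ≤ L_i}`. -/
def cosetProg {N d : ℕ} (H : AddSubgroup (ZMod N)) (a : Fin d → ZMod N) (L : Fin d → ℕ) : Set (ZMod N) :=
  {x | ∃ h ∈ H, ∃ n : Fin d → ℤ, (∀ i, |n i| ≤ L i) ∧ x = h + ∑ i, (n i : ZMod N) * a i}

/-- The coset progression is proper: different coefficients give different cosets of `H`. -/
def Proper {N d : ℕ} (H : AddSubgroup (ZMod N)) (a : Fin d → ZMod N) (L : Fin d → ℕ) : Prop :=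
  ∀ n n' : Fin d → ℤ, (∀ i, |n i| ≤ L i) → (∀ i, |n' i| ≤ L i) →
    (∑ i, (n i : ZMod N) * a i) - (∑ i, (n' i : ZMod N) * a i) ∈ H → n = n'

/-- The statement Q1. -/
def Q1 : Prop :=
  ∃ C : ℝ, 0 < C ∧ ∃ c : ℝ, 0 < c ∧ ∀ N : ℕ, 0 < N → ∀ A : Finset (ZMod N), A.Nonempty →
    (A.card : ℝ) / (N : ℝ) ≤ 1 / 2 →
      ∃ (Γ : Finset (ZMod N)) (ε : ℝ), 0 < ε ∧ (Γ.card : ℝ) ≤ C * Real.log ((N : ℝ) / (A.card : ℝ)) ∧
        c / Real.log ((N : ℝ) / (A.card : ℝ)) ≤ ε ∧ bohr Γ ε ⊆ twoAMinusTwoA A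

/-- `2B - 2B` contains a Bohr set of dimension `≤ C k` and radius `≥ c / k`. -/
def HasBohr (C c : ℝ) (k M : ℕ) (B : Finset (ZMod M)) : Prop :=
  ∃ (Γ : Finset (ZMod M)) (ε : ℝ), 0 < ε ∧ (Γ.card : ℝ) ≤ C * k ∧ c / k ≤ ε ∧ bohr Γ ε ⊆ twoAMinusTwoA B

/-- `2B - 2B` contains a proper coset progression of dimension `≤ C k` and density `≥ (k + 1) ^ (- C k)`. -/
def HasProg (C : ℝ) (k M : ℕ) (B : Finset (ZMod M)) : Prop :=
  ∃ (H : AddSubgroup (ZMod M)) (d : ℕ) (a : Fin d → ZMod M) (L : Fin d → ℕ), Proper H a L ∧ (d : ℝ) ≤ C * k ∧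
    Real.log ((M : ℝ) / ((cosetProg H a L).ncard : ℝ)) ≤ C * k * Real.log (k + 1) ∧
    cosetProg H a L ⊆ twoAMinusTwoA B

/-- There are arbitrarily large moduli `M ∈ 𝓜` such that the number of the sets `B ⊆ ℤ/M` with
`s = ⌊M / 2 ^ k⌋ + 1` elements which do not have the property `G k M` is less than `(M choose s) ^ (1 - δ)`. -/
def FewExceptions (δ : ℝ) (𝓜 : Set ℕ) (G : (k M : ℕ) → Finset (ZMod M) → Prop) (k : ℕ) : Prop :=
  ∀ M₀ : ℕ, ∃ M ∈ 𝓜, M₀ < M ∧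
    (({B : Finset (ZMod M) | B.card = M / 2 ^ k + 1 ∧ ¬ G k M B}.ncard : ℕ) : ℝ) <
      ((M.choose (M / 2 ^ k + 1) : ℕ) : ℝ) ^ (1 - δ)

/-- The Bohr set `{n ∈ ℤ : ‖n θ‖ ≤ ε for all θ ∈ Θ}` with real frequencies. -/
def bohrZ (Θ : Finset ℝ) (ε : ℝ) : Set ℤ := {n | ∀ θ ∈ Θ, |(n : ℝ) * θ - ((round ((n : ℝ) * θ) : ℤ) : ℝ)| ≤ ε}

/-- The set `2A - 2A` for a set of integers. -/
def twoZ (A : Set ℤ) : Set ℤ := {n | ∃ a₁ ∈ A, ∃ a₂ ∈ A, ∃ a₃ ∈ A, ∃ a₄ ∈ A, n = a₁ + a₂ - a₃ - a₄}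

/-- The upper Banach density of `A` is at least `β`: there are arbitrarily long intervals of integers in which `A` has
density at least `β`. -/
def UpperDensity (A : Set ℤ) (β : ℝ) : Prop :=
  ∀ L₀ : ℕ, ∃ (a : ℤ) (L : ℕ), L₀ ≤ L ∧ β * L ≤ ((A ∩ Set.Ico a (a + L)).ncard : ℝ)

/-- The analogue of Q1 for sets of integers. -/
def Q1Int : Prop :=
  ∃ C : ℝ, 0 < C ∧ ∃ c : ℝ, 0 < c ∧ ∀ β : ℝ, 0 < β → β ≤ 1 / 2 → ∀ A : Set ℤ, UpperDensity A β →
    ∃ (Θ : Finset ℝ) (ε : ℝ), 0 < ε ∧ (Θ.card : ℝ) ≤ C * Real.log (1 / β) ∧ c / Real.log (1 / β) ≤ ε ∧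
      bohrZ Θ ε ⊆ twoZ A

/-- **Equivalent forms of Q1.** -/
theorem result (𝓜 : Set ℕ) (h𝓜 : 𝓜.Infinite) (δ : ℝ) (hδ : 0 < δ) (hδ1 : δ ≤ 1)
    -- `𝒦` is a set of positive integers that meets every interval `[L, L ^ D]`, `L ≥ 2`
    (𝒦 : Set ℕ) (D : ℕ) (h𝒦0 : ∀ k ∈ 𝒦, 0 < k) (h𝒦 : ∀ L : ℕ, 2 ≤ L → ∃ k ∈ 𝒦, L ≤ k ∧ k ≤ L ^ D) :
    -- (1) Bohr sets, sparse moduli, sparse densities, few exceptions
    (Q1 ↔ ∃ C : ℝ, 0 < C ∧ ∃ c : ℝ, 0 < c ∧ ∀ k ∈ 𝒦, FewExceptions δ 𝓜 (HasBohr C c) k) ∧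
    -- (2) proper coset progressions, sparse moduli, sparse densities, few exceptions
    (Q1 ↔ ∃ C : ℝ, 0 < C ∧ ∀ k ∈ 𝒦, FewExceptions δ 𝓜 (HasProg C) k) ∧
    -- (3) proper coset progressions, all moduli, all densities, no exceptions
    (Q1 ↔ ∃ C : ℝ, 0 < C ∧ ∀ (k M : ℕ), 0 < k → 0 < M →
      ∀ B : Finset (ZMod M), M ≤ 2 ^ k * B.card → HasProg C k M B) ∧
    -- (4) sets of integers of positive upper Banach density
    (Q1 ↔ Q1Int) :=
  ⟨(BT.main' 𝓜 h𝓜 δ hδ hδ1 𝒦 D h𝒦0 h𝒦).1, (BT.main' 𝓜 h𝓜 δ hδ hδ1 𝒦 D h𝒦0 h𝒦).2,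
    (BT.main 𝓜 h𝓜 δ hδ hδ1).2.2, BT.q1_iff_q1z⟩

end Pool.Agent.Results.MP_169871_nt.SparseModuliFewExceptions
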